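import Mathlib
import Pool.Agent.H27.G.R_seed8.H345R2.Defs
import Pool.Agent.H27.G.R_seed8.H370R2.Digamma

/-! TEAM AH, module 2 (Chi): the factor `XX` of the functional equation. -/

open Complex Filter Topology Set MeasureTheory

namespace H345

theorem zeta_fe (s : ℂ) (hs : ∀ n : ℕ, s ≠ -n) (hs' : s ≠ 1) :
    riemannZeta (1 - s) = XX s * riemannZeta s := by
  rw [riemannZeta_one_sub hs hs']
  rfl

namespace Chi

theorem two_pi_ne : (2 * (Real.pi : ℂ)) ≠ 0 := by
  have : (Real.pi : ℂ) ≠ 0 := by exact_mod_cast Real.pi_ne_zero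
  simp [this]

theorem XX_mul (s : ℂ) (h : Complex.sin (Real.pi * s) ≠ 0) : XX s * XX (1 - s) = 1 := by
  have h1 : Complex.cos (Real.pi * (1 - s) / 2) = Complex.sin (Real.pi * s / 2) := by
    have : (Real.pi : ℂ) * (1 - s) / 2 = Real.pi / 2 - Real.pi * s / 2 := by ring
    rw [this, Complex.cos_pi_div_two_sub]
  have h2 : Complex.sin (Real.pi * s) =
      2 * Complex.sin (Real.pi * s / 2) * Complex.cos (Real.pi * s / 2) := by
    rw [← Complex.sin_two_mul]
    congr 1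
    ring
  have h3 := Complex.Gamma_mul_Gamma_one_sub s
  have h4 : (2 * (Real.pi : ℂ)) ^ (-s) * (2 * (Real.pi : ℂ)) ^ (-(1 - s)) = (2 * (Real.pi : ℂ))⁻¹ := by
    rw [← Complex.cpow_add _ _ two_pi_ne, ← Complex.cpow_neg_one]
    congr 1
    ring
  have hpi : (Real.pi : ℂ) ≠ 0 := by exact_mod_cast Real.pi_ne_zero
  calc XX s * XX (1 - s)
      = 4 * ((2 * (Real.pi : ℂ)) ^ (-s) * (2 * (Real.pi : ℂ)) ^ (-(1 - s))) *
          (Gamma s * Gamma (1 - s)) *
          (Complex.sin (Real.pi * s / 2) * Complex.cos (Real.pi * s / 2)) := by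
        rw [XX, XX, h1]
        ring
    _ = 4 * (2 * (Real.pi : ℂ))⁻¹ * (Real.pi / Complex.sin (Real.pi * s)) *
          (Complex.sin (Real.pi * s) / 2) := by
        rw [h4, h3, h2]
        ring
    _ = 1 := by
        field_simp
        norm_num

theorem conj_two : (starRingEnd ℂ) (2 : ℂ) = 2 := Complex.conj_ofNat 2

theorem XX_conj (s : ℂ) : XX ((starRingEnd ℂ) s) = (starRingEnd ℂ) (XX s) := by
  have harg : (2 * (Real.pi : ℂ)).arg ≠ Real.pi := by
    have : (2 * (Real.pi : ℂ)) = ((2 * Real.pi : ℝ) : ℂ) := by push_cast; ring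
    rw [this, Complex.arg_ofReal_of_nonneg (by positivity)]
    exact Real.pi_ne_zero.symm
  have h1 : (2 * (Real.pi : ℂ)) ^ (-(starRingEnd ℂ) s) =
      (starRingEnd ℂ) ((2 * (Real.pi : ℂ)) ^ (-s)) := by
    have h2 := Complex.conj_cpow (2 * (Real.pi : ℂ)) (-s) harg
    have h3 : (starRingEnd ℂ) (2 * (Real.pi : ℂ)) = 2 * (Real.pi : ℂ) := by
      rw [map_mul, conj_two, conj_ofReal]
    have h4 := Complex.cpow_conj (2 * (Real.pi : ℂ)) (-s) harg
    rw [h3, map_neg] at h4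
    exact h4
  rw [XX, XX, map_mul, map_mul, map_mul, h1, Complex.Gamma_conj, ← Complex.cos_conj]
  congr 2
  · rw [conj_two]
  · rw [map_div₀, map_mul, conj_two, conj_ofReal]

theorem sin_half_ne (t : ℝ) : Complex.sin (Real.pi * (1 / 2 + (t : ℂ) * I)) ≠ 0 := by
  have h1 : (Real.pi : ℂ) * (1 / 2 + (t : ℂ) * I) = (Real.pi * t : ℝ) * I + Real.pi / 2 := by
    push_cast; ring
  rw [h1, Complex.sin_add_pi_div_two, Complex.cos_mul_I]
  have h2 : Complex.cosh ((Real.pi * t : ℝ) : ℂ) = ((Real.cosh (Real.pi * t) : ℝ) : ℂ) := by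
    rw [Complex.ofReal_cosh]
  rw [h2]
  exact_mod_cast (Real.cosh_pos _).ne'

end Chi

open Chi

theorem norm_XX_half (t : ℝ) : ‖XX (1 / 2 + (t : ℂ) * I)‖ = 1 := by
  have h1 := XX_mul _ (sin_half_ne t)
  have h2 : 1 - (1 / 2 + (t : ℂ) * I) = (starRingEnd ℂ) (1 / 2 + (t : ℂ) * I) := by
    simp only [map_add, map_div₀, map_one, map_mul, conj_ofReal, conj_I]
    rw [conj_two]
    ring
  rw [h2, XX_conj, Complex.mul_conj] at h1
  have h3 : Complex.normSq (XX (1 / 2 + (t : ℂ) * I)) = 1 := by exact_mod_cast h1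
  rw [Complex.normSq_eq_norm_sq] at h3
  have h4 := norm_nonneg (XX (1 / 2 + (t : ℂ) * I))
  nlinarith

namespace Chi

/-- the logarithmic derivative of `XX` -/
noncomputable def L2 (s : ℂ) : ℂ :=
  -(Real.log (2 * Real.pi) : ℂ) + logDeriv Gamma s -
    (Real.pi / 2) * (Complex.sin (Real.pi * s / 2) / Complex.cos (Real.pi * s / 2))

theorem norm_cos_ge (z : ℂ) : Real.sinh z.im ≤ ‖Complex.cos z‖ := by
  rw [Complex.cos, norm_div, Real.sinh_eq]
  have h1 : ‖(2 : ℂ)‖ = 2 := by simp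
  rw [h1]
  have h2 : ‖cexp (z * I)‖ = Real.exp (-z.im) := by
    rw [Complex.norm_exp]; simp
  have h3 : ‖cexp (-z * I)‖ = Real.exp z.im := by
    rw [Complex.norm_exp]; simp
  have h4 := norm_sub_norm_le (cexp (-z * I)) (-(cexp (z * I)))
  rw [norm_neg, h2, h3, sub_neg_eq_add, add_comm (cexp (-z * I))] at h4
  linarith

theorem sinh_pi_half {y : ℝ} (hy : Real.pi / 2 ≤ y) : 1 ≤ Real.sinh y := by
  have h1 : (1 : ℝ) ≤ y := by linarith [Real.pi_gt_three]
  have h2 : y ≤ Real.sinh y := Real.self_le_sinh_iff.2 (by linarith)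
  linarith

theorem im_half (s : ℂ) : ((Real.pi : ℂ) * s / 2).im = Real.pi / 2 * s.im := by
  have : (Real.pi : ℂ) * s / 2 = ((Real.pi / 2 : ℝ) : ℂ) * s := by push_cast; ring
  rw [this, Complex.im_ofReal_mul]

theorem norm_cos_ge_one {s : ℂ} (hs : 1 ≤ s.im) : 1 ≤ ‖Complex.cos (Real.pi * s / 2)‖ := by
  refine le_trans ?_ (norm_cos_ge _)
  rw [im_half]
  apply sinh_pi_half
  have := Real.pi_pos
  nlinarith

theorem cos_ne {s : ℂ} (hs : 1 ≤ s.im) : Complex.cos (Real.pi * s / 2) ≠ 0 := by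
  intro h
  have := norm_cos_ge_one hs
  rw [h, norm_zero] at this
  linarith

theorem hasDerivAt_XX {s : ℂ} (h0 : 0 < s.re) (h1 : 1 ≤ s.im) :
    HasDerivAt XX (XX s * L2 s) s := by
  have hc := cos_ne h1
  have hG : Gamma s ≠ 0 := Complex.Gamma_ne_zero_of_re_pos h0
  have hGd : DifferentiableAt ℂ Gamma s := by
    apply Complex.differentiableAt_Gamma
    intro m hm
    rw [hm] at h0
    simp at h0
    have : (0 : ℝ) ≤ m := Nat.cast_nonneg m
    linarith
  have d1 : HasDerivAt (fun z : ℂ => (2 * (Real.pi : ℂ)) ^ (-z))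
      ((2 * (Real.pi : ℂ)) ^ (-s) * Complex.log (2 * (Real.pi : ℂ)) * (-1)) s := by
    have := (hasDerivAt_neg s).const_cpow (c := 2 * (Real.pi : ℂ)) (Or.inl two_pi_ne)
    exact this
  have d2 : HasDerivAt Gamma (deriv Gamma s) s := hGd.hasDerivAt
  have d3 : HasDerivAt (fun z : ℂ => Complex.cos (Real.pi * z / 2))
      (-Complex.sin (Real.pi * s / 2) * (Real.pi / 2)) s := by
    have e1 : HasDerivAt (fun z : ℂ => (Real.pi : ℂ) * z / 2) ((Real.pi : ℂ) / 2) s := by
      have := ((hasDerivAt_id s).const_mul (Real.pi : ℂ)).div_const 2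
      simpa using this
    exact e1.ccos
  have d4 := (((d1.const_mul 2).mul d2).mul d3)
  have hlog : Complex.log (2 * (Real.pi : ℂ)) = (Real.log (2 * Real.pi) : ℂ) := by
    rw [← Complex.ofReal_ofNat, ← Complex.ofReal_mul, Complex.ofReal_log (by positivity)]
  have d5 : HasDerivAt XX _ s := d4
  refine d5.congr_deriv ?_
  simp only [Pi.mul_apply]
  rw [XX, L2, hlog, logDeriv_apply]
  field_simp
  ring

/-- the tangent is close to `i` in the upper half plane -/
theorem tan_close {s : ℂ} (hs : 1 ≤ s.im) :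
    ‖(Real.pi / 2 : ℂ) * (Complex.sin (Real.pi * s / 2) / Complex.cos (Real.pi * s / 2)) -
      (Real.pi / 2 : ℂ) * I‖ ≤ 1 / s.im := by
  have hc := cos_ne hs
  have h1 := norm_cos_ge_one hs
  set z : ℂ := Real.pi * s / 2 with hz
  have him : z.im = Real.pi / 2 * s.im := im_half s
  have e1 : Complex.sin z - I * Complex.cos z = -I * cexp (z * I) := by
    rw [Complex.exp_mul_I]
    ring_nf
    rw [Complex.I_sq]
    ring
  have e2 : (Real.pi / 2 : ℂ) * (Complex.sin z / Complex.cos z) - (Real.pi / 2 : ℂ) * I =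
      (Real.pi / 2 : ℂ) * ((-I * cexp (z * I)) / Complex.cos z) := by
    rw [← e1]
    field_simp
  have e5 : ‖-I * cexp (z * I) / Complex.cos z‖ = Real.exp ((z * I).re) / ‖Complex.cos z‖ := by
    rw [norm_div, norm_mul, norm_neg, norm_I, one_mul, Complex.norm_exp]
  rw [e2, norm_mul, e5]
  have e3 : (z * I).re = -z.im := by simp
  have e4 : ‖(Real.pi / 2 : ℂ)‖ = Real.pi / 2 := by
    rw [norm_div, Complex.norm_real, Real.norm_of_nonneg Real.pi_pos.le]
    simp
  rw [e3, e4, him]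
  have hs0 : 0 < s.im := by linarith
  have h2 : Real.exp (-(Real.pi / 2 * s.im)) / ‖Complex.cos z‖ ≤ Real.exp (-(Real.pi / 2 * s.im)) :=
    div_le_self (Real.exp_pos _).le h1
  have h3 : Real.exp (-(Real.pi / 2 * s.im)) ≤ 1 / (Real.pi / 2 * s.im) := by
    rw [Real.exp_neg, one_div]
    apply inv_anti₀ (by positivity)
    have := Real.add_one_le_exp (Real.pi / 2 * s.im)
    linarith
  calc Real.pi / 2 * (Real.exp (-(Real.pi / 2 * s.im)) / ‖Complex.cos z‖)
      ≤ Real.pi / 2 * (1 / (Real.pi / 2 * s.im)) :=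
        mul_le_mul_of_nonneg_left (h2.trans h3) (by positivity)
    _ = 1 / s.im := by field_simp

theorem tsum_er_le {s : ℂ} (h0 : 0 < s.re) (h1 : 1 ≤ s.im) :
    ‖∑' n, H370.DG.er n s‖ ≤ 2 / s.im := by
  set u := s.im with hu
  have hu0 : 0 < u := by linarith
  let f : ℕ → ℝ := fun n => 2 / ((n : ℝ) + 1 + u)
  have hf0 : Tendsto f atTop (𝓝 0) := by
    apply Tendsto.div_atTop tendsto_const_nhds
    apply tendsto_atTop_add_const_right
    apply tendsto_atTop_add_const_right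
    exact tendsto_natCast_atTop_atTop
  have hsum : HasSum (fun n : ℕ => f n - f (n + 1)) (f 0) := by
    rw [hasSum_iff_tendsto_nat_of_nonneg]
    · have h2 : ∀ n, ∑ i ∈ Finset.range n, (f i - f (i + 1)) = f 0 - f n := by
        intro n
        exact Finset.sum_range_sub' f n
      simp only [h2]
      simpa using tendsto_const_nhds.sub hf0
    · intro i
      simp only [f]
      rw [sub_nonneg]
      apply div_le_div_of_nonneg_left (by norm_num) (by positivity)
      push_cast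
      linarith
  have h3 : ‖∑' n, H370.DG.er n s‖ ≤ f 0 := by
    apply tsum_of_norm_bounded hsum
    intro n
    have hn : (0 : ℝ) ≤ n := Nat.cast_nonneg n
    have hre : (n : ℝ) + 2 ≤ (s + ((n : ℂ) + 2)).re := by
      simp only [add_re, natCast_re, re_ofNat]
      linarith
    have h4 := H370.DG.log_step (z := s + ((n : ℂ) + 2)) (by linarith)
    have h5 : s + ((n : ℂ) + 2) + 1 = s + (n + 3) := by ring
    rw [h5] at h4
    refine h4.trans ?_
    have h6 : ((n : ℝ) + 2) ^ 2 + u ^ 2 ≤ ‖s + ((n : ℂ) + 2)‖ ^ 2 := by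
      rw [← Complex.normSq_eq_norm_sq, Complex.normSq_apply]
      have h7 : (s + ((n : ℂ) + 2)).im = u := by simp [hu]
      rw [h7]
      nlinarith
    have h8 : f n - f (n + 1) = 2 / (((n : ℝ) + 1 + u) * ((n : ℝ) + 2 + u)) := by
      simp only [f]
      push_cast
      field_simp
      ring
    rw [h8, div_le_div_iff₀ (by nlinarith) (by positivity)]
    nlinarith [sq_nonneg ((n : ℝ) + 2 - u)]
  refine h3.trans ?_
  simp only [f]
  apply div_le_div_of_nonneg_left (by norm_num) hu0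
  push_cast
  linarith

theorem log_close {s : ℂ} (h0 : 0 < s.re) (h2 : s.re ≤ 4) (h1 : 12 ≤ s.im) :
    ‖Complex.log (s + 2) - ((Real.log s.im : ℂ) + (Real.pi / 2 : ℂ) * I)‖ ≤ 9 / s.im := by
  set u := s.im with hu
  have hu0 : 0 < u := by linarith
  have hIu : ((u : ℂ) * I) ≠ 0 := by
    simp [hu0.ne']
  have e1 : s + 2 = ((u : ℂ) * I) * (1 + ((s.re + 2 : ℝ) : ℂ) / ((u : ℂ) * I)) := by
    rw [mul_add, mul_one, mul_div_cancel₀ _ hIu]
    apply Complex.ext
    · simp
    · simp [hu]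
  have hn : ‖((s.re + 2 : ℝ) : ℂ) / ((u : ℂ) * I)‖ ≤ 6 / u := by
    rw [norm_div, norm_mul, norm_I, mul_one, Complex.norm_real, Complex.norm_real,
      Real.norm_of_nonneg (by linarith), Real.norm_of_nonneg hu0.le]
    gcongr
    linarith
  have hn2 : ‖((s.re + 2 : ℝ) : ℂ) / ((u : ℂ) * I)‖ ≤ 1 / 2 := by
    refine hn.trans ?_
    rw [div_le_iff₀ hu0]
    linarith
  set w := ((s.re + 2 : ℝ) : ℂ) / ((u : ℂ) * I) with hw
  have e2 : Complex.log ((u : ℂ) * I) = (Real.log u : ℂ) + (Real.pi / 2 : ℂ) * I := by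
    rw [Complex.log_ofReal_mul hu0 (by simp), Complex.log_I]
  have hre : 0 < (1 + w).re := by
    have h5 : -‖w‖ ≤ w.re := by
      have := abs_re_le_norm w
      rw [abs_le] at this
      exact this.1
    rw [add_re, one_re]
    linarith
  have him : (1 + w).im ≤ 0 := by
    have : w = ((-(s.re + 2) / u : ℝ) : ℂ) * I := by
      rw [hw]
      have hIne : (I : ℂ) ≠ 0 := I_ne_zero
      have hune : (u : ℂ) ≠ 0 := by exact_mod_cast hu0.ne'
      push_cast
      field_simp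
      rw [Complex.I_sq]
      ring
    rw [this]
    simp only [add_im, one_im, zero_add, mul_I_im, ofReal_re]
    apply div_nonpos_of_nonpos_of_nonneg
    · linarith
    · exact hu0.le
  have e3 : Complex.log (s + 2) = Complex.log ((u : ℂ) * I) + Complex.log (1 + w) := by
    conv_lhs => rw [e1]
    apply Complex.log_mul hIu (by intro h; rw [h] at hre; simp at hre)
    have a1 : ((u : ℂ) * I).arg = Real.pi / 2 := by
      rw [Complex.arg_real_mul _ hu0, Complex.arg_I]
    have a2 := abs_arg_lt_pi_div_two_iff.mpr (Or.inl hre)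
    rw [abs_lt] at a2
    rw [a1]
    constructor
    · linarith [Real.pi_pos]
    · linarith [Real.pi_pos]
  rw [e3, e2, add_sub_cancel_left]
  refine (Complex.norm_log_one_add_half_le_self hn2).trans ?_
  calc 3 / 2 * ‖w‖ ≤ 3 / 2 * (6 / u) := by gcongr
    _ = 9 / u := by ring

/-- the logarithmic derivative of `XX` in the upper half plane -/
theorem L2_close {s : ℂ} (h0 : 0 < s.re) (h2 : s.re ≤ 4) (h1 : 12 ≤ s.im) :
    ‖L2 s - (Real.log (s.im / (2 * Real.pi)) : ℂ)‖ ≤ 14 / s.im := by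
  have hu0 : 0 < s.im := by linarith
  have hdg := H370.DG.logDeriv_Gamma' h0
  have b1 := log_close h0 h2 h1
  have b2 := tsum_er_le h0 (by linarith : 1 ≤ s.im)
  have b3 := tan_close (by linarith : 1 ≤ s.im)
  have b4 : ‖1 / s‖ ≤ 1 / s.im := by
    rw [norm_div, norm_one]
    apply one_div_le_one_div_of_le hu0
    exact (le_abs_self _).trans (abs_im_le_norm s)
  have b5 : ‖1 / (s + 1)‖ ≤ 1 / s.im := by
    rw [norm_div, norm_one]
    apply one_div_le_one_div_of_le hu0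
    refine le_trans ?_ (abs_im_le_norm (s + 1))
    simp [le_abs_self]
  have e0 : (Real.log (s.im / (2 * Real.pi)) : ℂ) = (Real.log s.im : ℂ) - (Real.log (2 * Real.pi) : ℂ) := by
    rw [Real.log_div hu0.ne' (by positivity)]
    push_cast
    ring
  have e : L2 s - (Real.log (s.im / (2 * Real.pi)) : ℂ) =
      (Complex.log (s + 2) - ((Real.log s.im : ℂ) + (Real.pi / 2 : ℂ) * I)) - 1 / s - 1 / (s + 1)
        + ∑' n, H370.DG.er n s -
        ((Real.pi / 2 : ℂ) * (Complex.sin (Real.pi * s / 2) / Complex.cos (Real.pi * s / 2)) -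
          (Real.pi / 2 : ℂ) * I) := by
    rw [L2, hdg, e0]
    ring
  rw [e]
  refine (norm_sub_le _ _).trans ?_
  refine (add_le_add (norm_add_le _ _) le_rfl).trans ?_
  refine (add_le_add (add_le_add (norm_sub_le _ _) le_rfl) le_rfl).trans ?_
  refine (add_le_add (add_le_add (add_le_add (norm_sub_le _ _) le_rfl) le_rfl) le_rfl).trans ?_
  calc _ ≤ 9 / s.im + 1 / s.im + 1 / s.im + 2 / s.im + 1 / s.im := by
        gcongr
    _ = 14 / s.im := by ring

theorem abs_log_ratio {T x : ℝ} (hT : 0 < T) (hx : |x| ≤ T / 2) :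
    |Real.log (T + x) - Real.log T| ≤ 2 * |x| / T := by
  rw [abs_le] at hx
  have hpos : 0 < T + x := by linarith [hx.1]
  rw [← Real.log_div hpos.ne' hT.ne']
  have hq : 0 < (T + x) / T := div_pos hpos hT
  have h1 := Real.log_le_sub_one_of_pos hq
  have h2 := Real.one_sub_inv_le_log_of_pos hq
  have e1 : (T + x) / T - 1 = x / T := by field_simp; ring
  have e2 : 1 - ((T + x) / T)⁻¹ = x / (T + x) := by field_simp; ring
  rw [e1] at h1
  rw [e2] at h2
  rw [abs_le]
  constructor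
  · refine le_trans ?_ h2
    rw [← neg_div, div_le_div_iff₀ hT hpos]
    rcases le_total 0 x with h | h
    · rw [abs_of_nonneg h]; nlinarith
    · rw [abs_of_nonpos h]; nlinarith [hx.1]
  · refine h1.trans ?_
    gcongr
    have := le_abs_self x
    linarith [abs_nonneg x]

end Chi

theorem XX_local : ∃ C T0 : ℝ, 0 < C ∧ 2 ≤ T0 ∧ ∀ T : ℝ, T0 ≤ T → ∀ τ : ℝ, |τ| ≤ T / 2 →
    ‖XX (1 / 2 + ((T + τ : ℝ) : ℂ) * I) -
      XX (1 / 2 + (T : ℂ) * I) * cexp (((τ * Real.log (T / (2 * Real.pi)) : ℝ) : ℂ) * I)‖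
      ≤ C * (1 + τ ^ 2) / T := by
  refine ⟨16, 24, by norm_num, by norm_num, ?_⟩
  intro T hT τ hτ
  have hT0 : 0 < T := by linarith
  set l : ℝ := Real.log (T / (2 * Real.pi)) with hl
  let F : ℝ → ℂ := fun x => XX (1 / 2 + ((T + x : ℝ) : ℂ) * I) * cexp (-((x * l : ℝ) : ℂ) * I)
  have hexp : ∀ x : ℝ, ‖cexp (-((x * l : ℝ) : ℂ) * I)‖ = 1 := by
    intro x
    have : -((x * l : ℝ) : ℂ) * I = ((-(x * l) : ℝ) : ℂ) * I := by push_cast; ring
    rw [this, Complex.norm_exp_ofReal_mul_I]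
  have hF : ∀ x, ‖F x‖ = 1 := by
    intro x
    simp only [F]
    rw [norm_mul, norm_XX_half, hexp, one_mul]
  have hder : ∀ x : ℝ, |x| ≤ T / 2 → HasDerivAt F
      (F x * (I * (L2 (1 / 2 + ((T + x : ℝ) : ℂ) * I) - (l : ℂ)))) x := by
    intro x hx
    have hx1 := (abs_le.1 hx).1
    have h1 := hasDerivAt_XX (s := 1 / 2 + ((T + x : ℝ) : ℂ) * I) (by simp) (by simp; linarith)
    have h2 : HasDerivAt (fun x : ℝ => (1 / 2 + ((T + x : ℝ) : ℂ) * I)) I x := by
      have h3 : HasDerivAt (fun x : ℝ => ((T + x : ℝ) : ℂ)) 1 x := by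
        have := ((hasDerivAt_id x).const_add T).ofReal_comp
        simpa using this
      simpa using (h3.mul_const I).const_add (1 / 2 : ℂ)
    have h4 := h1.comp x h2
    have h5 : HasDerivAt (fun x : ℝ => -((x * l : ℝ) : ℂ) * I) (-(l : ℂ) * I) x := by
      have h6 : HasDerivAt (fun x : ℝ => ((x * l : ℝ) : ℂ)) (l : ℂ) x := by
        have := ((hasDerivAt_id x).mul_const l).ofReal_comp
        simpa using this
      exact (h6.neg).mul_const I
    have h7 := h5.cexp
    have h8 := h4.mul h7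
    refine HasDerivAt.congr_deriv h8 ?_
    simp only [F, Function.comp]
    ring
  have hbound : ∀ x : ℝ, |x| ≤ |τ| →
      ‖F x * (I * (L2 (1 / 2 + ((T + x : ℝ) : ℂ) * I) - (l : ℂ)))‖ ≤ (28 + 2 * |τ|) / T := by
    intro x hx
    have hx2 : |x| ≤ T / 2 := hx.trans hτ
    have hx1 := (abs_le.1 hx2).1
    rw [norm_mul, hF, one_mul, norm_mul, norm_I, one_mul]
    have him : (1 / 2 + ((T + x : ℝ) : ℂ) * I).im = T + x := by simp
    have hre : (1 / 2 + ((T + x : ℝ) : ℂ) * I).re = 1 / 2 := by simp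
    have h1 := L2_close (s := 1 / 2 + ((T + x : ℝ) : ℂ) * I) (by rw [hre]; norm_num)
      (by rw [hre]; norm_num) (by rw [him]; linarith)
    rw [him] at h1
    have hpos : 0 < T + x := by linarith
    have h2 : |Real.log ((T + x) / (2 * Real.pi)) - l| ≤ 2 * |x| / T := by
      rw [hl, Real.log_div hpos.ne' (by positivity), Real.log_div hT0.ne' (by positivity)]
      have := abs_log_ratio hT0 hx2
      convert this using 2
      ring
    calc ‖L2 (1 / 2 + ((T + x : ℝ) : ℂ) * I) - (l : ℂ)‖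
        = ‖(L2 (1 / 2 + ((T + x : ℝ) : ℂ) * I) - (Real.log ((T + x) / (2 * Real.pi)) : ℂ)) +
            ((Real.log ((T + x) / (2 * Real.pi)) - l : ℝ) : ℂ)‖ := by
          congr 1; push_cast; ring
      _ ≤ 14 / (T + x) + 2 * |x| / T := by
          refine (norm_add_le _ _).trans (add_le_add h1 ?_)
          rw [Complex.norm_real]
          exact h2
      _ ≤ 28 / T + 2 * |τ| / T := by
          apply add_le_add
          · rw [div_le_div_iff₀ hpos hT0]
            linarith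
          · gcongr
      _ = (28 + 2 * |τ|) / T := by ring
  have hmv := Convex.norm_image_sub_le_of_norm_hasDerivWithin_le (𝕜 := ℝ) (f := F)
    (f' := fun x => F x * (I * (L2 (1 / 2 + ((T + x : ℝ) : ℂ) * I) - (l : ℂ))))
    (s := Icc (-|τ|) |τ|) (x := 0) (y := τ) (C := (28 + 2 * |τ|) / T)
    (fun x hx => (hder x ((abs_le.2 ⟨hx.1, hx.2⟩).trans hτ)).hasDerivWithinAt)
    (fun x hx => hbound x (abs_le.2 ⟨hx.1, hx.2⟩)) (convex_Icc _ _)
    ⟨by simp, abs_nonneg _⟩ ⟨neg_abs_le _, le_abs_self _⟩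
  have e1 : XX (1 / 2 + ((T + τ : ℝ) : ℂ) * I) -
      XX (1 / 2 + (T : ℂ) * I) * cexp (((τ * l : ℝ) : ℂ) * I) =
      (F τ - F 0) * cexp (((τ * l : ℝ) : ℂ) * I) := by
    have h1 : cexp (-((τ * l : ℝ) : ℂ) * I) * cexp (((τ * l : ℝ) : ℂ) * I) = 1 := by
      rw [← Complex.exp_add]
      simp
    have h2 : F τ * cexp (((τ * l : ℝ) : ℂ) * I) = XX (1 / 2 + ((T + τ : ℝ) : ℂ) * I) := by
      simp only [F]
      rw [mul_assoc, h1, mul_one]
    have h3 : F 0 = XX (1 / 2 + (T : ℂ) * I) := by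
      simp [F]
    rw [sub_mul, h2, h3]
  rw [e1, norm_mul, Complex.norm_exp_ofReal_mul_I, mul_one]
  refine hmv.trans ?_
  rw [sub_zero, Real.norm_eq_abs, div_mul_eq_mul_div]
  apply div_le_div_of_nonneg_right _ hT0.le
  have h1 : |τ| ^ 2 = τ ^ 2 := sq_abs τ
  nlinarith [sq_nonneg (|τ| - 1), abs_nonneg τ]

namespace Chi

theorem XX_ne {s : ℂ} (h0 : 0 < s.re) (h1 : 1 ≤ s.im) : XX s ≠ 0 := by
  rw [XX]
  refine mul_ne_zero (mul_ne_zero (mul_ne_zero two_ne_zero ?_)
    (Complex.Gamma_ne_zero_of_re_pos h0)) (cos_ne h1)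
  rw [Complex.cpow_ne_zero_iff]
  left
  exact two_pi_ne

theorem L2_bound : ∃ K : ℝ, 0 < K ∧ ∀ s : ℂ, 1 / 4 ≤ s.re → s.re ≤ 4 → 1 ≤ s.im →
    ‖L2 s - (Real.log s.im : ℂ)‖ ≤ K := by
  obtain ⟨C, hC⟩ := H370.digamma_bound
  refine ⟨|C| + 1 + Real.log (2 * Real.pi) + Real.pi / 2, ?_, ?_⟩
  · have : 0 ≤ Real.log (2 * Real.pi) := Real.log_nonneg (by linarith [Real.pi_gt_three])
    positivity
  · intro s h0 h2 h1
    have him : |s.im| = s.im := abs_of_nonneg (by linarith)
    have b1 := hC s h0 h2 (by rw [him]; linarith)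
    rw [him] at b1
    have b3 := tan_close h1
    have b4 : 1 / s.im ≤ 1 := by
      rw [div_le_iff₀ (by linarith)]; linarith
    have e : L2 s - (Real.log s.im : ℂ) =
        (logDeriv Gamma s - Real.log s.im) -
        ((Real.pi / 2 : ℂ) * (Complex.sin (Real.pi * s / 2) / Complex.cos (Real.pi * s / 2)) -
          (Real.pi / 2 : ℂ) * I) - (Real.log (2 * Real.pi) : ℂ) - (Real.pi / 2 : ℂ) * I := by
      rw [L2]
      ring
    rw [e]
    have b5 : ‖(Real.log (2 * Real.pi) : ℂ)‖ = Real.log (2 * Real.pi) := by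
      rw [Complex.norm_real, Real.norm_of_nonneg]
      exact Real.log_nonneg (by linarith [Real.pi_gt_three])
    have b6 : ‖(Real.pi / 2 : ℂ) * I‖ = Real.pi / 2 := by
      have : (Real.pi / 2 : ℂ) = ((Real.pi / 2 : ℝ) : ℂ) := by push_cast; ring
      rw [norm_mul, norm_I, mul_one, this, Complex.norm_real, Real.norm_of_nonneg]
      positivity
    refine (norm_sub_le _ _).trans ?_
    refine (add_le_add (norm_sub_le _ _) le_rfl).trans ?_
    refine (add_le_add (add_le_add (norm_sub_le _ _) le_rfl) le_rfl).trans ?_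
    rw [b5, b6]
    have := le_abs_self C
    linarith [b3.trans b4]

/-- the size of `XX` -/
theorem XX_size : ∃ K : ℝ, 0 < K ∧ ∀ s : ℂ, 1 / 2 ≤ s.re → s.re ≤ 4 → 1 ≤ s.im →
    Real.exp (-K) * s.im ^ (s.re - 1 / 2) ≤ ‖XX s‖ ∧
    ‖XX s‖ ≤ Real.exp K * s.im ^ (s.re - 1 / 2) := by
  obtain ⟨K, hK, hL⟩ := L2_bound
  refine ⟨4 * K, by positivity, ?_⟩
  intro s h0 h2 h1
  set t := s.im with ht
  have ht0 : 0 < t := by linarith
  let P : ℝ → ℂ := fun x => (x : ℂ) + (t : ℂ) * I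
  have hPre : ∀ x, (P x).re = x := by intro x; simp [P]
  have hPim : ∀ x, (P x).im = t := by intro x; simp [P]
  have hPs : P s.re = s := by
    apply Complex.ext
    · simp [P]
    · simp [P, ht]
  let F : ℝ → ℂ := fun x => XX (P x) * cexp (-(((x - 1 / 2) * Real.log t : ℝ) : ℂ))
  let G : ℝ → ℂ := fun x => (F x)⁻¹
  have hFne : ∀ x, 0 < x → F x ≠ 0 := by
    intro x hx
    apply mul_ne_zero
    · exact XX_ne (by rw [hPre]; exact hx) (by rw [hPim]; exact h1)
    · exact Complex.exp_ne_zero _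
  have hFd : ∀ x, 0 < x → HasDerivAt F (F x * (L2 (P x) - (Real.log t : ℂ))) x := by
    intro x hx
    have d1 := hasDerivAt_XX (s := P x) (by rw [hPre]; exact hx) (by rw [hPim]; exact h1)
    have d2 : HasDerivAt P 1 x := by
      have := (hasDerivAt_id x).ofReal_comp.add_const ((t : ℂ) * I)
      simpa [P] using this
    have d3 := d1.comp x d2
    have d4 : HasDerivAt (fun x : ℝ => -(((x - 1 / 2) * Real.log t : ℝ) : ℂ)) (-(Real.log t : ℂ)) x := by
      have h6 : HasDerivAt (fun x : ℝ => (((x - 1 / 2) * Real.log t : ℝ) : ℂ)) (Real.log t : ℂ) x := by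
        have := (((hasDerivAt_id x).sub_const (1 / 2)).mul_const (Real.log t)).ofReal_comp
        simpa using this
      exact h6.neg
    have d5 := d3.mul d4.cexp
    refine HasDerivAt.congr_deriv d5 ?_
    simp only [F, Function.comp]
    ring
  have hGd : ∀ x, 0 < x → HasDerivAt G (-(G x * (L2 (P x) - (Real.log t : ℂ)))) x := by
    intro x hx
    have := (hFd x hx).inv (hFne x hx)
    refine HasDerivAt.congr_deriv this ?_
    simp only [G]
    have := hFne x hx
    field_simp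
  have hLx : ∀ x, 1 / 2 ≤ x → x ≤ 4 → ‖L2 (P x) - (Real.log t : ℂ)‖ ≤ K := by
    intro x hx1 hx2
    have := hL (P x) (by rw [hPre]; linarith) (by rw [hPre]; exact hx2) (by rw [hPim]; exact h1)
    rwa [hPim] at this
  have hF0 : ‖F (1 / 2)‖ = 1 := by
    have e1 : P (1 / 2) = 1 / 2 + (t : ℂ) * I := by simp [P]
    simp only [F]
    rw [e1, norm_mul, norm_XX_half]
    simp
  have hG0 : ‖G (1 / 2)‖ = 1 := by
    simp only [G]
    rw [norm_inv, hF0, inv_one]
  have hexpb : Real.exp (K * (s.re - 1 / 2)) ≤ Real.exp (4 * K) := by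
    apply Real.exp_le_exp.2
    nlinarith
  have gF := norm_le_gronwallBound_of_norm_deriv_right_le (f := F)
    (f' := fun x => F x * (L2 (P x) - (Real.log t : ℂ))) (δ := 1) (K := K) (ε := 0)
    (a := 1 / 2) (b := 4)
    (fun x hx => (hFd x (by linarith [hx.1])).continuousAt.continuousWithinAt)
    (fun x hx => (hFd x (by linarith [hx.1])).hasDerivWithinAt) hF0.le
    (fun x hx => by
      rw [norm_mul, add_zero, mul_comm]
      exact mul_le_mul_of_nonneg_right (hLx x hx.1 hx.2.le) (norm_nonneg _)) s.re ⟨h0, h2⟩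
  have gG := norm_le_gronwallBound_of_norm_deriv_right_le (f := G)
    (f' := fun x => -(G x * (L2 (P x) - (Real.log t : ℂ)))) (δ := 1) (K := K) (ε := 0)
    (a := 1 / 2) (b := 4)
    (fun x hx => (hGd x (by linarith [hx.1])).continuousAt.continuousWithinAt)
    (fun x hx => (hGd x (by linarith [hx.1])).hasDerivWithinAt) hG0.le
    (fun x hx => by
      rw [norm_neg, norm_mul, add_zero, mul_comm]
      exact mul_le_mul_of_nonneg_right (hLx x hx.1 hx.2.le) (norm_nonneg _)) s.re ⟨h0, h2⟩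
  rw [gronwallBound_ε0, one_mul] at gF gG
  have hFs : ‖F s.re‖ = ‖XX s‖ / t ^ (s.re - 1 / 2) := by
    simp only [F]
    rw [hPs, norm_mul, Complex.norm_exp]
    have e2 : (-(((s.re - 1 / 2) * Real.log t : ℝ) : ℂ)).re = -((s.re - 1 / 2) * Real.log t) := by
      rw [neg_re, ofReal_re]
    rw [e2, Real.exp_neg, Real.rpow_def_of_pos ht0, mul_comm (Real.log t)]
    exact (div_eq_mul_inv _ _).symm
  have hGs : ‖G s.re‖ = t ^ (s.re - 1 / 2) / ‖XX s‖ := by
    simp only [G]
    rw [norm_inv, hFs, inv_div]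
  have htp : 0 < t ^ (s.re - 1 / 2) := Real.rpow_pos_of_pos ht0 _
  have hXp : 0 < ‖XX s‖ := norm_pos_iff.2 (XX_ne (by linarith) h1)
  rw [hFs] at gF
  rw [hGs] at gG
  constructor
  · rw [Real.exp_neg, inv_mul_le_iff₀ (Real.exp_pos _)]
    rw [div_le_iff₀ hXp] at gG
    exact gG.trans (mul_le_mul_of_nonneg_right hexpb hXp.le)
  · rw [div_le_iff₀ htp] at gF
    exact gF.trans (mul_le_mul_of_nonneg_right hexpb htp.le)

/-- `ζ` is close to one on the line `Re s = 2` -/
theorem zeta_two_line (t : ℝ) : ‖riemannZeta (2 + (t : ℂ) * I) - 1‖ ≤ 2 / 3 := by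
  have hre : (2 + (t : ℂ) * I).re = 2 := by simp
  rw [zeta_eq_tsum_one_div_nat_add_one_cpow (by rw [hre]; norm_num)]
  have hterm : ∀ n : ℕ, ‖1 / ((n : ℂ) + 1) ^ (2 + (t : ℂ) * I)‖ = 1 / ((n : ℝ) + 1) ^ 2 := by
    intro n
    have h1 : ((n : ℂ) + 1) = (((n : ℝ) + 1 : ℝ) : ℂ) := by push_cast; ring
    rw [norm_div, norm_one, h1, Complex.norm_cpow_eq_rpow_re_of_pos (by positivity), hre]
    norm_num
  have hs2 : Summable (fun n : ℕ => 1 / ((n : ℝ) + 1) ^ 2) := H370.DG.summable_inv_sq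
  have hsum : Summable (fun n : ℕ => 1 / ((n : ℂ) + 1) ^ (2 + (t : ℂ) * I)) := by
    apply Summable.of_norm
    simp only [hterm]
    exact hs2
  rw [hsum.tsum_eq_zero_add]
  have h0 : (1 : ℂ) / (((0 : ℕ) : ℂ) + 1) ^ (2 + (t : ℂ) * I) = 1 := by simp
  rw [h0, add_sub_cancel_left]
  have hz : ∑' n : ℕ, 1 / ((n : ℝ) + 1) ^ 2 = Real.pi ^ 2 / 6 := by
    have h1 := hasSum_zeta_two
    have h2 := h1.summable.tsum_eq_zero_add
    rw [h1.tsum_eq] at h2
    simp only [Nat.cast_zero, ne_eq, OfNat.ofNat_ne_zero, not_false_eq_true, zero_pow, div_zero,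
      zero_add, Nat.cast_add, Nat.cast_one] at h2
    exact h2.symm
  have hz2 := hs2.tsum_eq_zero_add
  rw [hz] at hz2
  have hs3 : Summable (fun n : ℕ => 1 / (((n + 1 : ℕ) : ℝ) + 1) ^ 2) :=
    (summable_nat_add_iff 1).2 hs2
  have h3 : ‖∑' n : ℕ, 1 / (((n + 1 : ℕ) : ℂ) + 1) ^ (2 + (t : ℂ) * I)‖ ≤
      ∑' n : ℕ, 1 / (((n + 1 : ℕ) : ℝ) + 1) ^ 2 := by
    apply tsum_of_norm_bounded hs3.hasSum
    intro n
    exact (hterm (n + 1)).le
  refine h3.trans ?_
  have hpi := Real.pi_lt_d2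
  have hpi0 := Real.pi_pos
  simp only [Nat.cast_zero, zero_add, one_pow, div_one] at hz2
  nlinarith

theorem zeta_two_lower (t : ℝ) : 1 / 3 ≤ ‖riemannZeta (2 + (t : ℂ) * I)‖ := by
  have h1 := zeta_two_line t
  have h2 := norm_sub_norm_le (1 : ℂ) (1 - riemannZeta (2 + (t : ℂ) * I))
  rw [sub_sub_cancel, norm_one, norm_sub_rev] at h2
  linarith

end Chi

theorem inv_zeta_left : ∃ C : ℝ, 0 < C ∧ ∀ t : ℝ, 1 ≤ t →
    ‖(riemannZeta (-1 + (t : ℂ) * I))⁻¹‖ ≤ C * t ^ (-(3 / 2 : ℝ)) := by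
  obtain ⟨K, hK, hX⟩ := XX_size
  refine ⟨3 * Real.exp K, by positivity, ?_⟩
  intro t ht
  have ht0 : 0 < t := by linarith
  have h1 := zeta_fe (2 - (t : ℂ) * I) (by
    intro n hn
    have := congrArg Complex.re hn
    simp at this
    have h : (0 : ℝ) ≤ n := Nat.cast_nonneg n
    linarith) (by
    intro hn
    have := congrArg Complex.re hn
    simp at this)
  have e1 : 1 - (2 - (t : ℂ) * I) = -1 + (t : ℂ) * I := by ring
  have e2 : (2 : ℂ) - (t : ℂ) * I = (starRingEnd ℂ) (2 + (t : ℂ) * I) := by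
    rw [map_add, map_mul, conj_two, conj_ofReal, conj_I]
    ring
  rw [e1, e2, XX_conj, riemannZeta_conj] at h1
  rw [h1, norm_inv, norm_mul, Complex.norm_conj, Complex.norm_conj]
  have h2 := (hX (2 + (t : ℂ) * I) (by simp; norm_num) (by simp; norm_num) (by simpa using ht)).1
  have e3 : (2 + (t : ℂ) * I).re - 1 / 2 = 3 / 2 := by simp; norm_num
  have e4 : (2 + (t : ℂ) * I).im = t := by simp
  rw [e3, e4] at h2
  have h3 := zeta_two_lower t
  have h4 : Real.exp (-K) * t ^ (3 / 2 : ℝ) * (1 / 3) ≤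
      ‖XX (2 + (t : ℂ) * I)‖ * ‖riemannZeta (2 + (t : ℂ) * I)‖ :=
    mul_le_mul h2 h3 (by norm_num) (norm_nonneg _)
  have h5 : (3 * Real.exp K * t ^ (-(3 / 2 : ℝ)))⁻¹ = Real.exp (-K) * t ^ (3 / 2 : ℝ) * (1 / 3) := by
    rw [Real.rpow_neg ht0.le, Real.exp_neg, mul_inv, mul_inv, inv_inv]
    ring
  rw [← h5] at h4
  have h6 : 0 < 3 * Real.exp K * t ^ (-(3 / 2 : ℝ)) := by positivity
  exact inv_le_of_inv_le₀ h6 h4

theorem aa_conj (t : ℝ) (ht : t ∈ Zo) :
    (starRingEnd ℂ) (aa t) = - aa t / XX (1 / 2 + (t : ℂ) * I) := by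
  set ρ : ℂ := 1 / 2 + (t : ℂ) * I with hρ
  have hre : ρ.re = 1 / 2 := by simp [hρ]
  have hz : riemannZeta ρ = 0 := ht
  have hX1 : ‖XX ρ‖ = 1 := norm_XX_half t
  have hXne : XX ρ ≠ 0 := by
    intro h
    rw [h, norm_zero] at hX1
    exact zero_ne_one hX1
  have hρ1 : ρ ≠ 1 := by
    intro h
    rw [h] at hre
    norm_num at hre
  have h1ρ : 1 - ρ = (starRingEnd ℂ) ρ := by
    rw [hρ, map_add, map_div₀, map_one, map_mul, conj_two, conj_ofReal, conj_I]
    ring
  have h1ρ1 : 1 - ρ ≠ 1 := by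
    intro h
    have := congrArg Complex.re h
    rw [sub_re, one_re, hre] at this
    norm_num at this
  -- differentiability of XX
  have hXd : DifferentiableAt ℂ XX ρ := by
    have a1 : DifferentiableAt ℂ (fun z : ℂ => (2 * (Real.pi : ℂ)) ^ (-z)) ρ := by
      have := (hasDerivAt_neg ρ).const_cpow (c := 2 * (Real.pi : ℂ)) (Or.inl two_pi_ne)
      exact this.differentiableAt
    have a2 : DifferentiableAt ℂ Gamma ρ := by
      apply Complex.differentiableAt_Gamma
      intro m hm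
      rw [hm] at hre
      simp at hre
      have : (0 : ℝ) ≤ m := Nat.cast_nonneg m
      linarith
    have a3 : DifferentiableAt ℂ (fun z : ℂ => Complex.cos (Real.pi * z / 2)) ρ := by
      apply DifferentiableAt.ccos
      fun_prop
    exact ((a1.const_mul 2).mul a2).mul a3
  have hev : (fun s : ℂ => riemannZeta (1 - s)) =ᶠ[𝓝 ρ] fun s => XX s * riemannZeta s := by
    have h1 : {z : ℂ | 0 < z.re} ∈ 𝓝 ρ :=
      (isOpen_lt continuous_const continuous_re).mem_nhds (by
        show 0 < ρ.re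
        rw [hre]; norm_num)
    have h2 : {z : ℂ | z ≠ 1} ∈ 𝓝 ρ := isOpen_ne.mem_nhds hρ1
    filter_upwards [h1, h2] with s hs1 hs2
    apply zeta_fe s _ hs2
    intro n hn
    have hs1' : 0 < s.re := hs1
    rw [hn] at hs1'
    simp at hs1'
    have : (0 : ℝ) ≤ n := Nat.cast_nonneg n
    linarith
  have d1 : HasDerivAt (fun s : ℂ => riemannZeta (1 - s)) (-(deriv riemannZeta (1 - ρ))) ρ := by
    have e1 : HasDerivAt riemannZeta (deriv riemannZeta (1 - ρ)) (1 - ρ) :=
      (differentiableAt_riemannZeta h1ρ1).hasDerivAt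
    have e2 : HasDerivAt (fun s : ℂ => 1 - s) (-1) ρ := by
      simpa using (hasDerivAt_id ρ).const_sub 1
    have e3 := e1.comp ρ e2
    refine HasDerivAt.congr_deriv e3 ?_
    ring
  have d2 : HasDerivAt (fun s : ℂ => XX s * riemannZeta s) (XX ρ * deriv riemannZeta ρ) ρ := by
    have e1 := hXd.hasDerivAt.mul (differentiableAt_riemannZeta hρ1).hasDerivAt
    rw [hz, mul_zero, zero_add] at e1
    exact e1
  have h3 : -(deriv riemannZeta (1 - ρ)) = XX ρ * deriv riemannZeta ρ :=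
    (d1.congr_of_eventuallyEq hev.symm).unique d2
  have h4 : deriv riemannZeta (1 - ρ) = (starRingEnd ℂ) (deriv riemannZeta ρ) := by
    have h6 : (starRingEnd ℂ) ∘ riemannZeta ∘ (starRingEnd ℂ) = riemannZeta := by
      ext s
      simp only [Function.comp]
      rw [riemannZeta_conj, Complex.conj_conj]
    have h5 := congrFun (deriv_conj_conj (𝕜 := ℂ) (f := riemannZeta)) ((starRingEnd ℂ) ρ)
    rw [h6] at h5
    simp only [Function.comp, Complex.conj_conj] at h5
    rw [h1ρ, h5]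
  rw [h4] at h3
  show (starRingEnd ℂ) ((deriv riemannZeta ρ)⁻¹) = -(deriv riemannZeta ρ)⁻¹ / XX ρ
  rw [map_inv₀]
  have h7 : (starRingEnd ℂ) (deriv riemannZeta ρ) = -(XX ρ * deriv riemannZeta ρ) := by
    rw [← h3, neg_neg]
  rw [h7, inv_neg, mul_inv, neg_div, div_eq_mul_inv, mul_comm]

end H345
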